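import Mathlib
import Pool.Agent.Q87.ShiftSq

/-!
# A partial isometry with infinite dimensional kernel and co-kernel that is not embeddable

On `ℓ² ⊕ ℓ²` let `T (x, y) = ((3/5) S x + D y, 0)`, where `S` is the unilateral shift and
`D = diag (1, 4/5, 4/5, …)`. Then `T` is a partial isometry, its kernel and the orthogonal
complement of its range are infinite dimensional, and `T` has no square root; in particular it is
not embeddable into a `C₀`-semigroup. The kernel of `T` does not reduce `T`.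
-/

set_option autoImplicit false

open scoped ComplexConjugate InnerProductSpace

namespace Pool.Agent.Results.MP_d5c8f2_an.NotEmbeddable

variable {H : Type} [NormedAddCommGroup H] [InnerProductSpace ℂ H]

/-- `(S t)` for `t ≥ 0` is a `C₀`-semigroup of bounded operators on `H`. -/
structure IsC0Semigroup (S : ℝ → H →L[ℂ] H) : Prop where
  zero : S 0 = ContinuousLinearMap.id ℂ H
  add : ∀ s t : ℝ, 0 ≤ s → 0 ≤ t → S (s + t) = (S s).comp (S t)
  cont : ∀ x : H, ContinuousOn (fun t => S t x) (Set.Ici 0)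

/-- `T` is embeddable: `T = S 1` for some `C₀`-semigroup. -/
def Embeddable (T : H →L[ℂ] H) : Prop := ∃ S : ℝ → H →L[ℂ] H, IsC0Semigroup S ∧ S 1 = T

/-- `T` is a partial isometry: it is isometric on the orthogonal complement of its kernel. -/
def IsPartialIsometry (T : H →L[ℂ] H) : Prop :=
  ∀ x : H, (∀ y : H, T y = 0 → ⟪y, x⟫_ℂ = 0) → ‖T x‖ = ‖x‖

open Q87.ShiftSq

/-- The direct sum of two copies of `ℓ²`. -/
abbrev HH : Type := WithLp 2 (E × E)

/-- The diagonal operator `diag (1, 4/5, 4/5, …)`. -/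
noncomputable def D : E →L[ℂ] E :=
  ((4 / 5 : ℂ)) • ContinuousLinearMap.id ℂ E + ((1 / 5 : ℂ)) • (innerSL ℂ e).smulRight e

theorem D_apply (x : E) : D x = (4 / 5 : ℂ) • x + ((1 / 5 : ℂ) * ⟪e, x⟫_ℂ) • e := by
  simp [D, smul_smul]

/-- The operator. -/
noncomputable def T : HH →L[ℂ] HH :=
  ((WithLp.prodContinuousLinearEquiv 2 ℂ E E).symm : (E × E) →L[ℂ] HH).comp
    (((((3 / 5 : ℂ)) • S.toContinuousLinearMap).comp (ContinuousLinearMap.fst ℂ E E) +
      D.comp (ContinuousLinearMap.snd ℂ E E)).prod 0 |>.comp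
      ((WithLp.prodContinuousLinearEquiv 2 ℂ E E) : HH →L[ℂ] (E × E)))

/-- Pairs as elements of the direct sum. -/
noncomputable def mk (x y : E) : HH := WithLp.toLp 2 (x, y)

theorem T_apply (z : HH) : T z = mk ((3 / 5 : ℂ) • S z.fst + D z.snd) 0 := rfl

theorem mk_fst (x y : E) : (mk x y).fst = x := rfl
theorem mk_snd (x y : E) : (mk x y).snd = y := rfl

theorem mk_inj {x y x' y' : E} (h : mk x y = mk x' y') : x = x' ∧ y = y' :=
  ⟨congrArg (fun z : HH => z.fst) h, congrArg (fun z : HH => z.snd) h⟩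

theorem eta (z : HH) : z = mk z.fst z.snd := rfl

theorem T_eq_zero (z : HH) : T z = 0 ↔ (3 / 5 : ℂ) • S z.fst + D z.snd = 0 := by
  rw [T_apply]
  constructor
  · intro h
    exact congrArg (fun z : HH => z.fst) h
  · intro h
    rw [h]; rfl

theorem inner_ee : ⟪e, e⟫_ℂ = 1 := by
  rw [inner_self_eq_norm_sq_to_K, norm_e]; norm_num

/-- The lift of a vector into the orthogonal complement of the kernel. -/
noncomputable def W (x u : E) : HH := mk ((3 / 5 : ℂ) • x) ((4 / 5 : ℂ) • u + ((1 / 5 : ℂ) * ⟪e, u⟫_ℂ) • e)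

theorem T_W (x u : E) (hu : u = S x + ⟪e, u⟫_ℂ • e) : T (W x u) = mk u 0 := by
  rw [T_apply, W, mk_fst, mk_snd]
  congr 1
  rw [D_apply]
  have h1 : S x = u - ⟪e, u⟫_ℂ • e := by rw [eq_sub_iff_add_eq]; exact hu.symm
  rw [map_smul, h1, inner_add_right, inner_smul_right, inner_smul_right, inner_ee]
  module

theorem W_orth (x u : E) (hu : u = S x + ⟪e, u⟫_ℂ • e) (v : HH) (hv : T v = 0) :
    ⟪v, W x u⟫_ℂ = 0 := by
  rw [T_eq_zero, D_apply] at hv
  have h1 : ⟪S v.fst, u⟫_ℂ = ⟪v.fst, x⟫_ℂ := by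
    rw [hu, inner_add_right, inner_smul_right, LinearIsometry.inner_map_map]
    have : ⟪S v.fst, e⟫_ℂ = 0 := by
      rw [← inner_conj_symm, inner_e_S, map_zero]
    rw [this, mul_zero, add_zero]
  have h2 : ⟪(3 / 5 : ℂ) • S v.fst + ((4 / 5 : ℂ) • v.snd + ((1 / 5 : ℂ) * ⟪e, v.snd⟫_ℂ) • e), u⟫_ℂ = 0 := by
    rw [hv, inner_zero_left]
  rw [WithLp.prod_inner_apply]
  show ⟪v.fst, (3 / 5 : ℂ) • x⟫_ℂ + ⟪v.snd, (4 / 5 : ℂ) • u + ((1 / 5 : ℂ) * ⟪e, u⟫_ℂ) • e⟫_ℂ = 0
  rw [inner_add_left, inner_add_left, inner_smul_left, inner_smul_left, inner_smul_left, h1, map_mul,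
    inner_conj_symm] at h2
  simp only [map_div₀, map_ofNat, map_one] at h2
  rw [inner_smul_right, inner_add_right, inner_smul_right, inner_smul_right]
  linear_combination h2

theorem partialIsometry : IsPartialIsometry T := by
  intro z hz
  set u := (3 / 5 : ℂ) • S z.fst + D z.snd with hu
  obtain ⟨x, hx⟩ := decomp u
  have hT : T z = mk u 0 := T_apply z
  have hTW : T (W x u) = mk u 0 := T_W x u hx
  have hker : T (z - W x u) = 0 := by rw [map_sub, hT, hTW, sub_self]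
  have h1 : ⟪z - W x u, z - W x u⟫_ℂ = 0 := by
    rw [inner_sub_right, hz _ hker, W_orth x u hx _ hker, sub_zero]
  have h2 : z = W x u := sub_eq_zero.1 (inner_self_eq_zero.1 h1)
  rw [hT]
  have h3 : ‖mk u 0‖ ^ 2 = ‖z‖ ^ 2 := by
    rw [h2, WithLp.prod_norm_sq_eq_of_L2, WithLp.prod_norm_sq_eq_of_L2]
    show ‖u‖ ^ 2 + ‖(0 : E)‖ ^ 2 = ‖(3 / 5 : ℂ) • x‖ ^ 2 +
      ‖(4 / 5 : ℂ) • u + ((1 / 5 : ℂ) * ⟪e, u⟫_ℂ) • e‖ ^ 2
    have h4 : (4 / 5 : ℂ) • u + ((1 / 5 : ℂ) * ⟪e, u⟫_ℂ) • e = (4 / 5 : ℂ) • S x + ⟪e, u⟫_ℂ • e := by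
      have h1 : S x = u - ⟪e, u⟫_ℂ • e := by rw [eq_sub_iff_add_eq]; exact hx.symm
      rw [h1]; module
    have h5 : ∀ a b : ℂ, ‖a • S x + b • e‖ ^ 2 = ‖a‖ ^ 2 * ‖x‖ ^ 2 + ‖b‖ ^ 2 := by
      intro a b
      have h6 : ⟪a • S x, b • e⟫_ℂ = 0 := by
        rw [inner_smul_left, inner_smul_right, ← inner_conj_symm, inner_e_S]; simp
      rw [sq, norm_add_sq_eq_norm_sq_add_norm_sq_of_inner_eq_zero _ _ h6, norm_smul, norm_smul,
        LinearIsometry.norm_map, norm_e]
      ring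
    have h7 : ‖u‖ ^ 2 = ‖x‖ ^ 2 + ‖⟪e, u⟫_ℂ‖ ^ 2 := by
      have h8 := h5 1 ⟪e, u⟫_ℂ
      rw [one_smul, ← hx] at h8
      rw [h8]; simp
    rw [h4, h5, h7, norm_smul, norm_zero]
    norm_num
    ring
  exact (pow_left_inj₀ (norm_nonneg _) (norm_nonneg _) two_ne_zero).1 h3

theorem no_square (B : HH →L[ℂ] HH) (hB : B.comp B = T) : False := by
  have hBB : ∀ z, B (B z) = T z := fun z => by rw [← hB]; rfl
  have hsurj : ∀ x : E, ∃ z, T z = mk x 0 := fun x => by
    obtain ⟨y, hy⟩ := decomp x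
    exact ⟨_, T_W y x hy⟩
  have hinv : ∀ x : E, (B (mk x 0)).snd = 0 := by
    intro x
    obtain ⟨z, hz⟩ := hsurj x
    have : B (mk x 0) = T (B z) := by rw [← hz, ← hBB, ← hBB]
    rw [this, T_apply]; rfl
  have hB2 : ∀ x : E, B (mk x 0) = mk (B (mk x 0)).fst 0 := by
    intro x
    conv_lhs => rw [eta (B (mk x 0)), hinv]
  let b : E →ₗ[ℂ] E :=
    { toFun := fun x => (B (mk x 0)).fst
      map_add' := fun x y => by
        have : mk (x + y) 0 = mk x 0 + mk y 0 := by
          show WithLp.toLp 2 (x + y, (0:E)) = WithLp.toLp 2 (x + y, (0:E) + 0)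
          rw [add_zero]
        rw [this, map_add]; rfl
      map_smul' := fun c x => by
        have : mk (c • x) 0 = c • mk x 0 := by
          show WithLp.toLp 2 (c • x, (0:E)) = WithLp.toLp 2 (c • x, c • (0:E))
          rw [smul_zero]
        rw [this, map_smul]; rfl }
  apply no_sqrt (3 / 5 : ℂ) (by norm_num) b
  intro x
  show (B (mk (B (mk x 0)).fst 0)).fst = _
  rw [← hB2, hBB, T_apply, mk_fst, mk_snd, map_zero, add_zero, mk_fst]

theorem ker_infinite : ¬ FiniteDimensional ℂ (LinearMap.ker T.toLinearMap) := by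
  intro h
  apply Q87.ShiftSq.not_finite
  let f : E →ₗ[ℂ] LinearMap.ker T.toLinearMap :=
    { toFun := fun x => ⟨mk ((4 : ℂ) • x) (-((3 : ℂ) • S x)), by
        show T _ = 0
        rw [T_eq_zero, mk_fst, mk_snd, D_apply, inner_neg_right, inner_smul_right, inner_e_S,
          map_smul]
        module⟩
      map_add' := fun x y => by
        apply Subtype.ext
        show mk ((4 : ℂ) • (x + y)) (-((3 : ℂ) • S (x + y))) =
          mk ((4 : ℂ) • x + (4 : ℂ) • y) (-((3 : ℂ) • S x) + -((3 : ℂ) • S y))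
        rw [map_add, smul_add, smul_add, neg_add]
      map_smul' := fun c x => by
        apply Subtype.ext
        show mk ((4 : ℂ) • (c • x)) (-((3 : ℂ) • S (c • x))) =
          mk (c • ((4 : ℂ) • x)) (c • -((3 : ℂ) • S x))
        rw [map_smul, smul_comm (4 : ℂ), smul_comm (3 : ℂ), smul_neg]  }
  apply FiniteDimensional.of_injective f
  intro x y hxy
  have h1 : mk ((4 : ℂ) • x) (-((3 : ℂ) • S x)) = mk ((4 : ℂ) • y) (-((3 : ℂ) • S y)) :=
    congrArg Subtype.val hxy
  exact smul_right_injective E (by norm_num : (4 : ℂ) ≠ 0) (mk_inj h1).1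

theorem coker_infinite :
    ¬ FiniteDimensional ℂ ((LinearMap.range T.toLinearMap)ᗮ : Submodule ℂ HH) := by
  intro h
  apply Q87.ShiftSq.not_finite
  let f : E →ₗ[ℂ] ((LinearMap.range T.toLinearMap)ᗮ : Submodule ℂ HH) :=
    { toFun := fun x => ⟨mk 0 x, by
        rw [Submodule.mem_orthogonal]
        rintro _ ⟨z, rfl⟩
        show ⟪T z, mk 0 x⟫_ℂ = 0
        rw [T_apply, WithLp.prod_inner_apply]
        show ⟪_, (0 : E)⟫_ℂ + ⟪(0 : E), x⟫_ℂ = 0
        rw [inner_zero_right, inner_zero_left, add_zero]⟩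
      map_add' := fun x y => by
        apply Subtype.ext
        show WithLp.toLp 2 ((0:E), x + y) = WithLp.toLp 2 ((0:E) + 0, x + y)
        rw [add_zero]
      map_smul' := fun c x => by
        apply Subtype.ext
        show WithLp.toLp 2 ((0:E), c • x) = WithLp.toLp 2 (c • (0:E), c • x)
        rw [smul_zero] }
  apply FiniteDimensional.of_injective f
  intro x y hxy
  have h1 : mk 0 x = mk 0 y := congrArg Subtype.val hxy
  exact (mk_inj h1).2

/-- There is a partial isometry `T` on a Hilbert space whose kernel is infinite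
dimensional, whose range has an infinite dimensional orthogonal complement, and which is not
embeddable; moreover `T` has no bounded square root, and its kernel does not reduce `T`. -/
theorem result : ∃ (H : Type) (_ : NormedAddCommGroup H) (_ : InnerProductSpace ℂ H)
    (_ : CompleteSpace H) (T : H →L[ℂ] H),
    IsPartialIsometry T ∧
    ¬ FiniteDimensional ℂ (LinearMap.ker T.toLinearMap) ∧
    ¬ FiniteDimensional ℂ ((LinearMap.range T.toLinearMap)ᗮ : Submodule ℂ H) ∧
    (∀ B : H →L[ℂ] H, B.comp B ≠ T) ∧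
    ¬ Embeddable T ∧
    (∃ x : H, (∀ y : H, T y = 0 → ⟪y, x⟫_ℂ = 0) ∧ ∃ y : H, T y = 0 ∧ ⟪y, T x⟫_ℂ ≠ 0) := by
  refine ⟨HH, inferInstance, inferInstance, inferInstance, T, partialIsometry, ker_infinite,
    coker_infinite, fun B hB => no_square B hB, ?_, ?_⟩
  · rintro ⟨F, hF, hF1⟩
    refine no_square (F (1 / 2)) ?_
    rw [← hF1, ← hF.add (1 / 2) (1 / 2) (by norm_num) (by norm_num)]
    norm_num
  · refine ⟨W 0 e, fun y hy => W_orth 0 e ?_ y hy, mk ((4 : ℂ) • e) (-((3 : ℂ) • S e)), ?_, ?_⟩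
    · rw [inner_ee, map_zero, zero_add, one_smul]
    · rw [T_eq_zero, mk_fst, mk_snd, D_apply, inner_neg_right, inner_smul_right, inner_e_S,
          map_smul]
      module
    · rw [T_W 0 e (by rw [inner_ee, map_zero, zero_add, one_smul]), WithLp.prod_inner_apply]
      show ⟪(4 : ℂ) • e, e⟫_ℂ + ⟪-((3 : ℂ) • S e), (0 : E)⟫_ℂ ≠ 0
      rw [inner_zero_right, inner_smul_left, inner_ee]
      simp

end Pool.Agent.Results.MP_d5c8f2_an.NotEmbeddable
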